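import Pool.Agent.CoL67.Two

/-!
# Graphs whose complement is connected and has maximum degree at most two
-/

set_option autoImplicit false

namespace Pool.Agent.CoL67

open Finset

/-- a graph without three vertices which are pairwise not adjacent and without a vertex and three
vertices which are not adjacent to it has a perfect matching (if it has an even number `≥ 4` of
vertices) -/
theorem perfect {V : Type} [DecidableEq V] (H : SimpleGraph V) (j : ℕ) : ∀ S : Finset V,
    S.card = 2 * (j + 2) →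
    (∀ x ∈ S, ∀ b ∈ S, ∀ c ∈ S, ∀ d ∈ S, x ≠ b → x ≠ c → x ≠ d → b ≠ c → b ≠ d → c ≠ d →
      H.Adj x b ∨ H.Adj x c ∨ H.Adj x d) →
    (∀ x ∈ S, ∀ y ∈ S, ∀ z ∈ S, x ≠ y → x ≠ z → y ≠ z → H.Adj x y ∨ H.Adj x z ∨ H.Adj y z) →
    ∃ x y : Fin (j + 2) → V, (∀ i, x i ∈ S ∧ y i ∈ S ∧ H.Adj (x i) (y i)) ∧
      ∀ i l, i ≠ l → x i ≠ x l ∧ x i ≠ y l ∧ y i ≠ x l ∧ y i ≠ y l := by
  induction j with
  | zero =>
    intro S hS hst htr
    obtain ⟨a, ha⟩ : S.Nonempty := by
      rw [← card_pos, hS]
      norm_num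
    have hc : (S.erase a).card = 3 := by
      rw [card_erase_of_mem ha, hS]
    obtain ⟨b, c, d, hbc, hbd, hcd, he⟩ := card_eq_three.mp hc
    have hmem : ∀ w, w ∈ S.erase a ↔ w = b ∨ w = c ∨ w = d := by
      intro w
      rw [he]
      simp
    have hb := (hmem b).2 (Or.inl rfl)
    have hc' := (hmem c).2 (Or.inr (Or.inl rfl))
    have hd := (hmem d).2 (Or.inr (Or.inr rfl))
    rw [mem_erase] at hb hc' hd
    -- the matching `{x, y}, {z, w}`
    have key : ∀ x ∈ S, ∀ y ∈ S, ∀ z ∈ S, ∀ w ∈ S, x ≠ y → x ≠ z → x ≠ w → y ≠ z → y ≠ w → z ≠ w →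
        H.Adj x y → H.Adj z w →
        ∃ x y : Fin (0 + 2) → V, (∀ i, x i ∈ S ∧ y i ∈ S ∧ H.Adj (x i) (y i)) ∧
          ∀ i l, i ≠ l → x i ≠ x l ∧ x i ≠ y l ∧ y i ≠ x l ∧ y i ≠ y l := by
      intro x hx y hy z hz w hw hxy hxz hxw hyz hyw hzw h1 h2
      refine ⟨![x, z], ![y, w], ?_, ?_⟩
      · intro i
        fin_cases i
        · exact ⟨hx, hy, h1⟩
        · exact ⟨hz, hw, h2⟩
      · intro i l hil
        fin_cases i <;> fin_cases l
        · exact absurd rfl hil
        · exact ⟨hxz, hxw, hyz, hyw⟩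
        · exact ⟨hxz.symm, hyz.symm, hxw.symm, hyw.symm⟩
        · exact absurd rfl hil
    by_contra hno
    have k1 : ¬ (H.Adj a b ∧ H.Adj c d) := fun h => hno
      (key a ha b hb.2 c hc'.2 d hd.2 hb.1.symm hc'.1.symm hd.1.symm hbc hbd hcd h.1 h.2)
    have k2 : ¬ (H.Adj a c ∧ H.Adj b d) := fun h => hno
      (key a ha c hc'.2 b hb.2 d hd.2 hc'.1.symm hb.1.symm hd.1.symm hbc.symm hcd hbd h.1 h.2)
    have k3 : ¬ (H.Adj a d ∧ H.Adj b c) := fun h => hno
      (key a ha d hd.2 b hb.2 c hc'.2 hd.1.symm hb.1.symm hc'.1.symm hbd.symm hcd.symm hbc h.1 h.2)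
    have s1 := hst a ha b hb.2 c hc'.2 d hd.2 hb.1.symm hc'.1.symm hd.1.symm hbc hbd hcd
    have s2 := hst b hb.2 a ha c hc'.2 d hd.2 hb.1 hbc hbd hc'.1.symm hd.1.symm hcd
    have s3 := hst c hc'.2 a ha b hb.2 d hd.2 hc'.1 hbc.symm hcd hb.1.symm hd.1.symm hbd
    have s4 := hst d hd.2 a ha b hb.2 c hc'.2 hd.1 hbd.symm hcd.symm hb.1.symm hc'.1.symm hbc
    have t1 := htr a ha b hb.2 c hc'.2 hb.1.symm hc'.1.symm hbc
    have t2 := htr a ha b hb.2 d hd.2 hb.1.symm hd.1.symm hbd
    have t3 := htr a ha c hc'.2 d hd.2 hc'.1.symm hd.1.symm hcd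
    have t4 := htr b hb.2 c hc'.2 d hd.2 hbc hbd hcd
    rw [H.adj_comm b a] at s2
    rw [H.adj_comm c a, H.adj_comm c b] at s3
    rw [H.adj_comm d a, H.adj_comm d b, H.adj_comm d c] at s4
    clear key hno hst htr
    rcases s1 with q1 | q2 | q3
    · have q6 : ¬ H.Adj c d := fun h => k1 ⟨q1, h⟩
      by_cases q2 : H.Adj a c
      · have q5 : ¬ H.Adj b d := fun h => k2 ⟨q2, h⟩
        have q3 : H.Adj a d := s4.resolve_right fun h => h.elim q5 q6
        have q4 : ¬ H.Adj b c := fun h => k3 ⟨q3, h⟩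
        exact t4.elim q4 fun h => h.elim q5 q6
      · have q4 : H.Adj b c := (s3.resolve_left q2).resolve_right q6
        have q3 : H.Adj a d := (t3.resolve_left q2).resolve_right q6
        exact k3 ⟨q3, q4⟩
    · have q5 : ¬ H.Adj b d := fun h => k2 ⟨q2, h⟩
      by_cases q1 : H.Adj a b
      · have q6 : ¬ H.Adj c d := fun h => k1 ⟨q1, h⟩
        have q3 : H.Adj a d := s4.resolve_right fun h => h.elim q5 q6
        have q4 : ¬ H.Adj b c := fun h => k3 ⟨q3, h⟩
        exact t4.elim q4 fun h => h.elim q5 q6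
      · have q4 : H.Adj b c := (s2.resolve_left q1).resolve_right q5
        have q3 : H.Adj a d := (t2.resolve_left q1).resolve_right q5
        exact k3 ⟨q3, q4⟩
    · have q4 : ¬ H.Adj b c := fun h => k3 ⟨q3, h⟩
      by_cases q1 : H.Adj a b
      · have q6 : ¬ H.Adj c d := fun h => k1 ⟨q1, h⟩
        have q5 : H.Adj b d := (t4.resolve_left q4).resolve_right q6
        have q2 : H.Adj a c := s3.resolve_right fun h => h.elim q4 q6
        exact k2 ⟨q2, q5⟩
      · have q5 : H.Adj b d := (s2.resolve_left q1).resolve_left q4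
        have q2 : H.Adj a c := (t1.resolve_left q1).resolve_right q4
        exact k2 ⟨q2, q5⟩
  | succ j ih =>
    intro S hS hst htr
    obtain ⟨a, ha⟩ : S.Nonempty := by
      rw [← card_pos, hS]
      omega
    have hc : 3 ≤ (S.erase a).card := by
      rw [card_erase_of_mem ha, hS]
      omega
    obtain ⟨T, hT, hT3⟩ := exists_subset_card_eq hc
    obtain ⟨b, c, d, hbc, hbd, hcd, he⟩ := card_eq_three.mp hT3
    have hb := mem_erase.1 (hT (show b ∈ T by rw [he]; simp))
    have hc' := mem_erase.1 (hT (show c ∈ T by rw [he]; simp))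
    have hd := mem_erase.1 (hT (show d ∈ T by rw [he]; simp))
    obtain ⟨e, heS, hae⟩ : ∃ e ∈ S, H.Adj a e := by
      rcases hst a ha b hb.2 c hc'.2 d hd.2 hb.1.symm hc'.1.symm hd.1.symm hbc hbd hcd with h | h | h
      · exact ⟨b, hb.2, h⟩
      · exact ⟨c, hc'.2, h⟩
      · exact ⟨d, hd.2, h⟩
    have hsub : (S.erase a).erase e ⊆ S := (erase_subset _ _).trans (erase_subset _ _)
    have hcard : ((S.erase a).erase e).card = 2 * (j + 2) := by
      rw [card_erase_of_mem (mem_erase.2 ⟨hae.ne', heS⟩), card_erase_of_mem ha, hS]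
      omega
    obtain ⟨x, y, h1, h2⟩ := ih _ hcard
      (fun x hx b hb c hc d hd => hst x (hsub hx) b (hsub hb) c (hsub hc) d (hsub hd))
      (fun x hx y hy z hz => htr x (hsub hx) y (hsub hy) z (hsub hz))
    have hx : ∀ i, a ≠ x i ∧ e ≠ x i := fun i =>
      ⟨fun q => by have := (h1 i).1; rw [← q] at this; simp at this,
        fun q => by have := (h1 i).1; rw [← q] at this; simp at this⟩
    have hy : ∀ i, a ≠ y i ∧ e ≠ y i := fun i =>
      ⟨fun q => by have := (h1 i).2.1; rw [← q] at this; simp at this,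
        fun q => by have := (h1 i).2.1; rw [← q] at this; simp at this⟩
    refine ⟨Fin.cons a x, Fin.cons e y, ?_, ?_⟩
    · intro i
      refine Fin.cases ?_ (fun i => ?_) i
      · exact ⟨ha, heS, hae⟩
      · exact ⟨hsub (h1 i).1, hsub (h1 i).2.1, (h1 i).2.2⟩
    · intro i l
      refine Fin.cases ?_ (fun i => ?_) i <;> refine Fin.cases ?_ (fun l => ?_) l
      · intro h
        exact absurd rfl h
      · intro _
        simp only [Fin.cons_zero, Fin.cons_succ]
        exact ⟨(hx l).1, (hy l).1, (hx l).2, (hy l).2⟩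
      · intro _
        simp only [Fin.cons_zero, Fin.cons_succ]
        exact ⟨(hx i).1.symm, (hx i).2.symm, (hy i).1.symm, (hy i).2.symm⟩
      · intro h
        simp only [Fin.cons_succ]
        exact h2 i l fun q => h (by rw [q])

theorem closed_univ {V : Type} {F : SimpleGraph V} (hconn : F.Preconnected) (P : V → Prop) {x : V}
    (hx : P x) (hcl : ∀ u w, P u → F.Adj u w → P w) (w : V) : P w := by
  obtain ⟨q⟩ := hconn x w
  clear hconn
  induction q with
  | nil => exact hx
  | cons h _ ih => exact ih (hcl _ _ hx h)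

/-- a graph whose complement is connected, of maximum degree at most `2`, with an odd number of
vertices -/
theorem core {V : Type} [Fintype V] {G : SimpleGraph V} {k : ℕ} (hk2 : 2 ≤ k)
    (hn : Fintype.card V = 2 * k + 1) (hconn : Gᶜ.Preconnected)
    (hdeg : ∀ v a b c : V, a ≠ b → a ≠ c → b ≠ c → Gᶜ.Adj v a → Gᶜ.Adj v b → Gᶜ.Adj v c → False) :
    Mod2 G (k + 1) := by
  classical
  obtain ⟨j, rfl⟩ := Nat.exists_eq_add_of_le' hk2
  have hcard : ∀ S : Finset V, (∀ w, w ∈ S) → 5 ≤ S.card := by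
    intro S hS
    rw [Finset.eq_univ_of_forall hS, card_univ, hn]
    omega
  have h3 : ∀ x y z : V, Gᶜ.Adj x y → Gᶜ.Adj x z → Gᶜ.Adj y z → False := by
    intro x y z hxy hxz hyz
    have hcl := closed_univ hconn (fun w => w = x ∨ w = y ∨ w = z) (x := x) (Or.inl rfl) (by
      intro u w hu huw
      by_contra hw
      push Not at hw
      rcases hu with rfl | rfl | rfl
      · exact hdeg u y z w hyz.ne hw.2.1.symm hw.2.2.symm hxy hxz huw
      · exact hdeg u x z w hxz.ne hw.1.symm hw.2.2.symm hxy.symm hyz huw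
      · exact hdeg u x y w hxy.ne hw.1.symm hw.2.1.symm hxz.symm hyz.symm huw)
    have h5 := hcard {x, y, z} (fun w => by simpa using hcl w)
    have h6 := card_le_three (a := x) (b := y) (c := z)
    omega
  have h4 : ∀ a b c d : V, a ≠ c → b ≠ d → Gᶜ.Adj a b → Gᶜ.Adj b c → Gᶜ.Adj c d → Gᶜ.Adj d a →
      False := by
    intro a b c d hac hbd hab hbc hcd hda
    have hcl := closed_univ hconn (fun w => w = a ∨ w = b ∨ w = c ∨ w = d) (x := a) (Or.inl rfl) (by
      intro u w hu huw
      by_contra hw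
      push Not at hw
      obtain ⟨w1, w2, w3, w4⟩ := hw
      rcases hu with rfl | rfl | rfl | rfl
      · exact hdeg u b d w hbd w2.symm w4.symm hab hda.symm huw
      · exact hdeg u a c w hac w1.symm w3.symm hab.symm hbc huw
      · exact hdeg u b d w hbd w2.symm w4.symm hbc.symm hcd huw
      · exact hdeg u a c w hac w1.symm w3.symm hda hcd.symm huw)
    have h5 := hcard {a, b, c, d} (fun w => by simpa using hcl w)
    have h6 := card_le_four (a := a) (b := b) (c := c) (d := d)
    omega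
  have hcompl : ∀ {x y : V}, x ≠ y → ¬ G.Adj x y → Gᶜ.Adj x y := fun h1 h2 => by
    rw [SimpleGraph.compl_adj]
    exact ⟨h1, h2⟩
  have hno2 : ∀ x y z w : V, G.Adj x y → G.Adj z w → x ≠ z → x ≠ w → y ≠ z → y ≠ w →
      G.Adj x z ∨ G.Adj x w ∨ G.Adj y z ∨ G.Adj y w := by
    intro x y z w hxy hzw hxz hxw hyz hyw
    by_contra hno
    push Not at hno
    obtain ⟨n1, n2, n3, n4⟩ := hno
    exact h4 x z y w hxy.ne hzw.ne (hcompl hxz n1) (hcompl hyz n3).symm (hcompl hyw n4)
      (hcompl hxw n2).symm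
  obtain ⟨v⟩ : Nonempty V := by
    rw [← Fintype.card_pos_iff]
    omega
  -- the auxiliary graph
  let H : SimpleGraph V :=
    { Adj := fun x y => G.Adj x y ∧ x ≠ v ∧ y ≠ v ∧ (G.Adj v x ∨ G.Adj v y)
      symm := ⟨fun x y h => ⟨h.1.symm, h.2.2.1, h.2.1, h.2.2.2.symm⟩⟩
      loopless := ⟨fun x h => G.loopless.irrefl x h.1⟩ }
  have hH : ∀ x y, x ≠ v → y ≠ v → ¬ H.Adj x y → ¬ G.Adj x y ∨ (¬ G.Adj v x ∧ ¬ G.Adj v y) := by
    intro x y hx hy h
    by_contra hno
    push Not at hno
    refine h ⟨hno.1, hx, hy, ?_⟩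
    by_cases hvx : G.Adj v x
    · exact Or.inl hvx
    · exact Or.inr (hno.2 hvx)
  have hS : (univ.erase v).card = 2 * (j + 2) := by
    rw [card_erase_of_mem (mem_univ v), card_univ, hn]
    omega
  obtain ⟨x, y, h1, h2⟩ := perfect H j (univ.erase v) hS
    (by
      intro x hx b hb c hc d hd hxb hxc hxd hbc hbd hcd
      by_contra hno
      push Not at hno
      obtain ⟨n1, n2, n3⟩ := hno
      replace hx := (mem_erase.1 hx).1
      replace hb := (mem_erase.1 hb).1
      replace hc := (mem_erase.1 hc).1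
      replace hd := (mem_erase.1 hd).1
      have m1 := hH x b hx hb n1
      have m2 := hH x c hx hc n2
      have m3 := hH x d hx hd n3
      by_cases hvx : G.Adj v x
      · exact hdeg x b c d hbc hbd hcd (hcompl hxb (m1.resolve_right fun h => h.1 hvx))
          (hcompl hxc (m2.resolve_right fun h => h.1 hvx))
          (hcompl hxd (m3.resolve_right fun h => h.1 hvx))
      · have hxv : Gᶜ.Adj x v := (hcompl hx.symm hvx).symm
        -- two of them are not adjacent to `x` or two of them are not adjacent to `v`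
        have g : ∀ p q, p ≠ v → q ≠ v → p ≠ q → x ≠ p → x ≠ q → ¬ G.Adj x p → ¬ G.Adj x q →
            False := fun p q hp hq hpq hxp hxq g1 g2 =>
          hdeg x v p q hp.symm hq.symm hpq hxv (hcompl hxp g1) (hcompl hxq g2)
        have g' : ∀ p q, p ≠ v → q ≠ v → p ≠ q → x ≠ p → x ≠ q → ¬ G.Adj v p → ¬ G.Adj v q →
            False := fun p q hp hq hpq hxp hxq g1 g2 =>
          hdeg v x p q hxp hxq hpq hxv.symm (hcompl hp.symm g1) (hcompl hq.symm g2)
        rcases m1 with m1 | m1 <;> rcases m2 with m2 | m2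
        · exact g b c hb hc hbc hxb hxc m1 m2
        · rcases m3 with m3 | m3
          · exact g b d hb hd hbd hxb hxd m1 m3
          · exact g' c d hc hd hcd hxc hxd m2.2 m3.2
        · rcases m3 with m3 | m3
          · exact g c d hc hd hcd hxc hxd m2 m3
          · exact g' b d hb hd hbd hxb hxd m1.2 m3.2
        · exact g' b c hb hc hbc hxb hxc m1.2 m2.2)
    (by
      intro x hx y hy z hz hxy hxz hyz
      by_contra hno
      push Not at hno
      obtain ⟨n1, n2, n3⟩ := hno
      replace hx := (mem_erase.1 hx).1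
      replace hy := (mem_erase.1 hy).1
      replace hz := (mem_erase.1 hz).1
      have m1 := hH x y hx hy n1
      have m2 := hH x z hx hz n2
      have m3 := hH y z hy hz n3
      -- two vertices not adjacent to `v`
      have g : ∀ p q r, p ≠ v → q ≠ v → r ≠ v → p ≠ q → p ≠ r → q ≠ r → ¬ G.Adj v p → ¬ G.Adj v q →
          (¬ G.Adj p r ∨ (¬ G.Adj v p ∧ ¬ G.Adj v r)) →
          (¬ G.Adj q r ∨ (¬ G.Adj v q ∧ ¬ G.Adj v r)) → False := by
        intro p q r hp hq hr hpq hpr hqr g1 g2 g3 g4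
        have hvp := hcompl hp.symm g1
        have hvq := hcompl hq.symm g2
        by_cases hvr : G.Adj v r
        · have e1 := hcompl hpr (g3.resolve_right fun h => h.2 hvr)
          have e2 := hcompl hqr (g4.resolve_right fun h => h.2 hvr)
          exact h4 v p r q hr.symm hpq hvp e1 e2.symm hvq.symm
        · exact hdeg v p q r hpq hpr hqr hvp hvq (hcompl hr.symm hvr)
      rcases m1 with m1 | m1
      · rcases m2 with m2 | m2
        · rcases m3 with m3 | m3
          · exact h3 x y z (hcompl hxy m1) (hcompl hxz m2) (hcompl hyz m3)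
          · exact g y z x hy hz hx hyz hxy.symm hxz.symm m3.1 m3.2
              (Or.inl fun h => m1 h.symm) (Or.inl fun h => m2 h.symm)
        · exact g x z y hx hz hy hxz hxy hyz.symm m2.1 m2.2 (Or.inl m1)
            (m3.imp (fun h h' => h h'.symm) (fun h => ⟨h.2, h.1⟩))
      · exact g x y z hx hy hz hxy hxz hyz m1.1 m1.2 m2 m3)
  refine ⟨Fin.cons v x, Fin.cons v y, ?_, ?_, ?_⟩
  · intro i
    refine Fin.cases ?_ (fun i => ?_) i
    · exact Or.inl rfl
    · exact Or.inr (h1 i).2.2.1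
  · intro i l
    refine Fin.cases ?_ (fun i => ?_) i <;> refine Fin.cases ?_ (fun l => ?_) l
    · intro h
      exact absurd rfl h
    · intro _
      simp only [Fin.cons_zero, Fin.cons_succ]
      have g := (h1 l).2.2
      exact ⟨g.2.1.symm, g.2.2.1.symm, g.2.1.symm, g.2.2.1.symm⟩
    · intro _
      simp only [Fin.cons_zero, Fin.cons_succ]
      have g := (h1 i).2.2
      exact ⟨g.2.1, g.2.1, g.2.2.1, g.2.2.1⟩
    · intro h
      simp only [Fin.cons_succ]
      exact h2 i l fun q => h (by rw [q])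
  · intro i l
    refine Fin.cases ?_ (fun i => ?_) i <;> refine Fin.cases ?_ (fun l => ?_) l
    · intro h
      exact absurd rfl h
    · intro _
      simp only [Fin.cons_zero, Fin.cons_succ]
      rcases (h1 l).2.2.2.2.2 with g | g
      · exact Or.inl g
      · exact Or.inr (Or.inl g)
    · intro _
      simp only [Fin.cons_zero, Fin.cons_succ]
      rcases (h1 i).2.2.2.2.2 with g | g
      · exact Or.inl g.symm
      · exact Or.inr (Or.inr (Or.inl g.symm))
    · intro h
      simp only [Fin.cons_succ]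
      obtain ⟨g1, g2, g3, g4⟩ := h2 i l fun q => h (by rw [q])
      exact hno2 _ _ _ _ (h1 i).2.2.1 (h1 l).2.2.1 g1 g2 g3 g4

end Pool.Agent.CoL67
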