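import Pool.Agent.CoL18.Final
import Pool.Agent.CoL67.Core

/-!
# Complements of line graphs: complete minors with branch sets of at most two vertices
-/

set_option autoImplicit false
set_option linter.unusedVariables false

namespace Pool.Agent.CoL67

open Finset Pool.Agent.HM Pool.Agent.CA31 Pool.Agent.CA72 Pool.Agent.CA31C Pool.Agent.T3 Pool.Agent.CoL18
open scoped Classical

section crit

variable {V : Type} [Fintype V] {G : SimpleGraph V} {k : ℕ} {α : Type} {s : V → Finset α}

omit [Fintype V] in
/-- a matching without conflicts -/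
theorem mod2_of_noconf {K : ℕ} {p : Fin K × Bool → V} (hp : Mt G p) (h : ∀ i j, ¬ Cf G p i j) :
    Mod2 G K := by
  refine ⟨fun i => p (i, false), fun i => p (i, true), fun i => Or.inr (hp.adj i false),
    fun i j hij => ?_, fun i j hij => ?_⟩
  · have hne : ∀ b c, p (i, b) ≠ p (j, c) := fun b c he => hij (congrArg Prod.fst (hp.inj he))
    exact ⟨hne _ _, hne _ _, hne _ _, hne _ _⟩
  · by_contra hno
    push Not at hno
    obtain ⟨h1, h2, h3, h4⟩ := hno
    refine h i j ⟨hij, fun b c => ?_⟩
    cases b <;> cases c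
    · exact h1
    · exact h2
    · exact h3
    · exact h4

theorem mod2_of_matching (E : Edge G s) (hk : ¬ G.Colorable k) (hk2 : 2 ≤ k)
    (hconn : Gᶜ.Preconnected) (h : ∃ p : Fin (k + 1) × Bool → V, Mt G p) : Mod2 G (k + 1) := by
  obtain ⟨p, hp, hmin⟩ := exists_min h
  refine mod2_of_noconf hp ?_
  intro i j hij
  have C := ctx_of E hk hconn hp hmin
  have S := C.sys
  obtain ⟨a, b, hab, h1⟩ := card_eq_two.1 (E.two (p (i, false)))
  obtain ⟨x, y, hxy, h2⟩ := card_eq_two.1 (E.two (p (i, true)))
  have hM : MM s p a b x y := ⟨i, false, h1, h2⟩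
  have hcf : MM s p a x b y ∨ MM s p a y b x :=
    blocker E hp hp (i := i) (m := j) (b := false) h1 h2 (fun _ => rfl) hij
  rcases hcf with h3 | h3
  · exact C.noCyc (by omega) (a := a) (b := b) (c := y) (d := x) ⟨S.s3 hM, S.s2 _ _ _ _ h3⟩
  · exact C.noCyc (by omega) (a := a) (b := b) (c := x) (d := y) ⟨hM, S.s2 _ _ _ _ h3⟩

/-- critical graphs with `2 k + 1` vertices -/
theorem odd_mod2 (E : Edge G s) (hk : ¬ G.Colorable k) (hk2 : 2 ≤ k)
    (hcrit : ∀ v, (G.induce {w | w ≠ v}).Colorable k) (hconn : Gᶜ.Preconnected)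
    (hn : Fintype.card V = 2 * k + 1) : Mod2 G (k + 1) := by
  refine core hk2 hn hconn ?_
  intro v a b c hab hac hbc hva hvb hvc
  obtain ⟨p, q, hpq, hv⟩ := card_eq_two.1 (E.two v)
  have hp : p ∈ s v := by rw [hv]; simp
  have hq : q ∈ s v := by rw [hv]; simp
  have hsh : ∀ w, Gᶜ.Adj v w → p ∈ s w ∨ q ∈ s w := by
    intro w hvw
    rw [SimpleGraph.compl_adj] at hvw
    have h1 : ¬ Disjoint (s v) (s w) := fun hd => hvw.2 ((E.adj v w hvw.1).2 hd)
    rw [Finset.not_disjoint_iff] at h1
    obtain ⟨r, hr, hrw⟩ := h1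
    rw [hv, mem_insert, mem_singleton] at hr
    rcases hr with rfl | rfl
    · exact Or.inl hrw
    · exact Or.inr hrw
  have key : ∀ (r : α) (d e : V), r ∈ s v → Gᶜ.Adj v d → Gᶜ.Adj v e → d ≠ e → r ∈ s d → r ∈ s e →
      False := fun r d e h1 h2 h3 h4 h5 h6 =>
    no_three E hk hcrit hconn hn h2.ne h3.ne h4 h1 h5 h6
  rcases hsh a hva with ha | ha <;> rcases hsh b hvb with hb | hb
  · exact key p a b hp hva hvb hab ha hb
  · rcases hsh c hvc with hc | hc
    · exact key p a c hp hva hvc hac ha hc
    · exact key q b c hq hvb hvc hbc hb hc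
  · rcases hsh c hvc with hc | hc
    · exact key p b c hp hvb hvc hbc hb hc
    · exact key q a c hq hva hvc hac ha hc
  · exact key q a b hq hva hvb hab ha hb

omit [Fintype V] in
/-- small numbers of colours -/
theorem small_mod2 (hk : ¬ G.Colorable k) (hk2 : k < 2) : Mod2 G (k + 1) := by
  have hne : Nonempty V := by
    by_contra h
    have : IsEmpty V := not_nonempty_iff.1 h
    exact hk ⟨SimpleGraph.Coloring.mk (fun v => (this.false v).elim)
      (fun {u v} _ => (this.false u).elim)⟩
  obtain ⟨v⟩ := hne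
  rcases Nat.lt_or_ge k 1 with h0 | h0
  · refine Mod2.of_clique (Q := {v}) ?_ (by rw [card_singleton]; omega)
    intro x hx y hy hxy
    rw [mem_singleton] at hx hy
    exact absurd (hx.trans hy.symm) hxy
  · have hk1 : k = 1 := by omega
    subst hk1
    by_cases he : ∃ x y, G.Adj x y
    · obtain ⟨x, y, hxy⟩ := he
      refine Mod2.of_clique (Q := {x, y}) ?_ (by rw [card_pair hxy.ne])
      intro a ha b hb hab
      rw [mem_insert, mem_singleton] at ha hb
      rcases ha with rfl | rfl <;> rcases hb with rfl | rfl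
      · exact absurd rfl hab
      · exact hxy
      · exact hxy.symm
      · exact absurd rfl hab
    · push Not at he
      exact absurd ⟨SimpleGraph.Coloring.mk (fun _ => (0 : Fin 1)) (fun {u v} h => absurd h (he u v))⟩ hk

/-- a critical graph of the class with connected complement -/
theorem crit_mod2 (E : Edge G s) (hk : ¬ G.Colorable k) (hk2 : 2 ≤ k)
    (hcrit : ∀ v, (G.induce {w | w ≠ v}).Colorable k) (hconn : Gᶜ.Preconnected) :
    Mod2 G (k + 1) := by
  have hgal := Pool.Agent.T3.gallai_card hk hcrit hconn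
  rcases Nat.lt_or_ge (2 * k + 1) (Fintype.card V) with h1 | h1
  · rcases match_or_clique hk hcrit (by omega) with h2 | ⟨Q, h2, h3⟩
    · exact mod2_of_matching E hk hk2 hconn h2
    · exact Mod2.of_clique h2 h3
  · exact odd_mod2 E hk hk2 hcrit hconn (by omega)

end crit

variable {α : Type}

/-- the theorem for the class -/
theorem main {V : Type} [Fintype V] {G : SimpleGraph V} {s : V → Finset α} (h : Le2 G s) {k : ℕ}
    (hk : ¬ G.Colorable k) : Mod2 G (k + 1) := by
  suffices haux : ∀ n : ℕ, ∀ (V : Type) [Fintype V] (G : SimpleGraph V) (s : V → Finset α),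
      Le2 G s → Fintype.card V = n → ∀ k : ℕ, ¬ G.Colorable k → Mod2 G (k + 1) from
    haux _ V G s h rfl k hk
  clear hk h
  intro n
  induction n using Nat.strong_induction_on with
  | _ n ih =>
    intro V _ G s hG hn k hk
    by_contra hno
    have hmin : ∀ A : Set V, A ≠ Set.univ → ∀ t : ℕ, ¬ (G.induce A).Colorable t →
        Mod2 (G.induce A) (t + 1) := by
      intro A hA t ht
      obtain ⟨v, hv⟩ := (Set.ne_univ_iff_exists_notMem A).1 hA
      have hlt : Fintype.card A < n := by
        rw [← hn]
        exact Fintype.card_subtype_lt (x := v) hv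
      exact ih _ hlt A (G.induce A) _ (hG.induce A) rfl t ht
    have hchi : ∀ A : Set V, A ≠ Set.univ → ∀ r : ℕ, (∀ t < r, ¬ (G.induce A).Colorable t) →
        Mod2 (G.induce A) r := by
      intro A hA r hr
      cases r with
      | zero => exact ⟨Fin.elim0, Fin.elim0, fun i => i.elim0, fun i => i.elim0, fun i => i.elim0⟩
      | succ r => exact hmin A hA r (hr r (Nat.lt_succ_self r))
    have hcrit : ∀ v, (G.induce {w | w ≠ v}).Colorable k := by
      intro v
      by_contra hcol
      apply hno
      refine Mod2.of_induce (A := {w | w ≠ v}) (hmin _ ?_ k hcol)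
      rw [Set.ne_univ_iff_exists_notMem]
      exact ⟨v, fun h => h rfl⟩
    have hconn : Gᶜ.Preconnected := by
      by_contra hcon
      unfold SimpleGraph.Preconnected at hcon
      push Not at hcon
      obtain ⟨u, v, huv⟩ := hcon
      set A : Set V := {w | Gᶜ.Reachable u w} with hA
      have huA : u ∈ A := SimpleGraph.Reachable.refl u
      have hvA : v ∉ A := huv
      have hjoin : ∀ a ∈ A, ∀ b ∈ Aᶜ, G.Adj a b := by
        intro a ha b hb
        by_contra h
        have hne : a ≠ b := by
          rintro rfl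
          exact hb ha
        have h1 : Gᶜ.Adj a b := by
          rw [SimpleGraph.compl_adj]
          exact ⟨hne, h⟩
        exact hb (SimpleGraph.Reachable.trans ha h1.reachable)
      have hAu : A ≠ Set.univ := by
        rw [Set.ne_univ_iff_exists_notMem]
        exact ⟨v, hvA⟩
      have hAcu : Aᶜ ≠ Set.univ := by
        rw [Set.ne_univ_iff_exists_notMem]
        exact ⟨u, fun h => h huA⟩
      obtain ⟨a, ha1, ha2⟩ := exists_chi (G.induce A)
      obtain ⟨b, hb1, hb2⟩ := exists_chi (G.induce Aᶜ)
      have hab : k + 1 ≤ a + b := by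
        by_contra hlt
        exact hk ((colorable_join ha1 hb1).mono (by omega))
      exact hno (Mod2.mono hab (Mod2.join hjoin (hchi A hAu a ha2) (hchi Aᶜ hAcu b hb2)))
    rcases Nat.lt_or_ge k 2 with hk2 | hk2
    · exact hno (small_mod2 hk hk2)
    · have hnt : Nontrivial V := by
        rw [← Fintype.one_lt_card_iff_nontrivial]
        have := Pool.Agent.T3.gallai_card hk hcrit hconn
        omega
      exact hno (crit_mod2 (edge_of hG hk hcrit hconn hnt) hk hk2 hcrit hconn)

end Pool.Agent.CoL67
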