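import Mathlib

/-!
# Complete minors with branch sets of at most two vertices
-/

set_option autoImplicit false

namespace Pool.Agent.CoL67

open Finset

/-- `x i`, `y i` are the vertices of the `i`-th branch set: one vertex or the two ends of an edge -/
def Mod2 {V : Type} (G : SimpleGraph V) (m : ℕ) : Prop :=
  ∃ x y : Fin m → V, (∀ i, x i = y i ∨ G.Adj (x i) (y i)) ∧
    (∀ i j, i ≠ j → x i ≠ x j ∧ x i ≠ y j ∧ y i ≠ x j ∧ y i ≠ y j) ∧
    ∀ i j, i ≠ j → G.Adj (x i) (x j) ∨ G.Adj (x i) (y j) ∨ G.Adj (y i) (x j) ∨ G.Adj (y i) (y j)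

variable {V : Type} {G : SimpleGraph V}

theorem Mod2.mono {m n : ℕ} (hmn : m ≤ n) (h : Mod2 G n) : Mod2 G m := by
  obtain ⟨x, y, h1, h2, h3⟩ := h
  have hne : ∀ i j : Fin m, i ≠ j → Fin.castLE hmn i ≠ Fin.castLE hmn j := fun i j hij he =>
    hij (Fin.castLE_injective hmn he)
  exact ⟨fun i => x (Fin.castLE hmn i), fun i => y (Fin.castLE hmn i), fun i => h1 _,
    fun i j hij => h2 _ _ (hne i j hij), fun i j hij => h3 _ _ (hne i j hij)⟩

theorem Mod2.of_induce {A : Set V} {m : ℕ} (h : Mod2 (G.induce A) m) : Mod2 G m := by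
  obtain ⟨x, y, h1, h2, h3⟩ := h
  refine ⟨fun i => x i, fun i => y i, fun i => ?_, fun i j hij => ?_, fun i j hij => ?_⟩
  · rcases h1 i with h | h
    · exact Or.inl (congrArg Subtype.val h)
    · exact Or.inr h
  · obtain ⟨a, b, c, d⟩ := h2 i j hij
    exact ⟨fun e => a (Subtype.ext e), fun e => b (Subtype.ext e), fun e => c (Subtype.ext e),
      fun e => d (Subtype.ext e)⟩
  · exact h3 i j hij

theorem Mod2.join {A : Set V} {a b : ℕ} (hj : ∀ u ∈ A, ∀ v ∈ Aᶜ, G.Adj u v)
    (hA : Mod2 (G.induce A) a) (hB : Mod2 (G.induce Aᶜ) b) : Mod2 G (a + b) := by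
  obtain ⟨x, y, h1, h2, h3⟩ := hA
  obtain ⟨x', y', h1', h2', h3'⟩ := hB
  have hxx : ∀ (u : A) (v : (Aᶜ : Set V)), (u : V) ≠ v := fun u v e => v.2 (e ▸ u.2)
  refine ⟨Fin.addCases (fun i => (x i : V)) (fun i => (x' i : V)),
    Fin.addCases (fun i => (y i : V)) (fun i => (y' i : V)), fun i => ?_, fun i j => ?_,
    fun i j => ?_⟩
  · refine Fin.addCases (fun i => ?_) (fun i => ?_) i
    · simp only [Fin.addCases_left]
      rcases h1 i with h | h
      · exact Or.inl (congrArg Subtype.val h)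
      · exact Or.inr h
    · simp only [Fin.addCases_right]
      rcases h1' i with h | h
      · exact Or.inl (congrArg Subtype.val h)
      · exact Or.inr h
  · refine Fin.addCases (fun i => ?_) (fun i => ?_) i <;>
      refine Fin.addCases (fun j => ?_) (fun j => ?_) j
    · intro hij
      simp only [Fin.addCases_left]
      obtain ⟨p, q, r, s⟩ := h2 i j (fun e => hij (by rw [e]))
      exact ⟨fun e => p (Subtype.ext e), fun e => q (Subtype.ext e), fun e => r (Subtype.ext e),
        fun e => s (Subtype.ext e)⟩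
    · intro _
      simp only [Fin.addCases_left, Fin.addCases_right]
      exact ⟨hxx _ _, hxx _ _, hxx _ _, hxx _ _⟩
    · intro _
      simp only [Fin.addCases_left, Fin.addCases_right]
      exact ⟨(hxx _ _).symm, (hxx _ _).symm, (hxx _ _).symm, (hxx _ _).symm⟩
    · intro hij
      simp only [Fin.addCases_right]
      obtain ⟨p, q, r, s⟩ := h2' i j (fun e => hij (by rw [e]))
      exact ⟨fun e => p (Subtype.ext e), fun e => q (Subtype.ext e), fun e => r (Subtype.ext e),
        fun e => s (Subtype.ext e)⟩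
  · refine Fin.addCases (fun i => ?_) (fun i => ?_) i <;>
      refine Fin.addCases (fun j => ?_) (fun j => ?_) j
    · intro hij
      simp only [Fin.addCases_left]
      exact h3 i j (fun e => hij (by rw [e]))
    · intro _
      simp only [Fin.addCases_left, Fin.addCases_right]
      exact Or.inl (hj _ (x i).2 _ (x' j).2)
    · intro _
      simp only [Fin.addCases_left, Fin.addCases_right]
      exact Or.inl (hj _ (x j).2 _ (x' i).2).symm
    · intro hij
      simp only [Fin.addCases_right]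
      exact h3' i j (fun e => hij (by rw [e]))

theorem Mod2.of_clique {Q : Finset V} {m : ℕ} (hQ : ∀ x ∈ Q, ∀ y ∈ Q, x ≠ y → G.Adj x y)
    (hm : m ≤ Q.card) : Mod2 G m := by
  refine Mod2.mono hm ⟨fun i => Q.equivFin.symm i, fun i => Q.equivFin.symm i,
    fun i => Or.inl rfl, fun i j hij => ?_, fun i j hij => ?_⟩
  · have h : ((Q.equivFin.symm i : Q) : V) ≠ Q.equivFin.symm j := fun e =>
      hij (Q.equivFin.symm.injective (Subtype.ext e))
    exact ⟨h, h, h, h⟩
  · have h : ((Q.equivFin.symm i : Q) : V) ≠ Q.equivFin.symm j := fun e =>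
      hij (Q.equivFin.symm.injective (Subtype.ext e))
    exact Or.inl (hQ _ (Q.equivFin.symm i).2 _ (Q.equivFin.symm j).2 h)

/-- the branch sets -/
theorem Mod2.sets {m : ℕ} (h : Mod2 G m) : ∃ f : Fin m → Set V,
    (∀ i, (f i).ncard ≤ 2) ∧ (∀ i, (G.induce (f i)).Connected) ∧
    (∀ i j, i ≠ j → Disjoint (f i) (f j)) ∧
    (∀ i j, i ≠ j → ∃ u ∈ f i, ∃ v ∈ f j, G.Adj u v) := by
  obtain ⟨x, y, h1, h2, h3⟩ := h
  refine ⟨fun i => {x i, y i}, fun i => ?_, fun i => ?_, fun i j hij => ?_, fun i j hij => ?_⟩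
  · have h4 := Set.ncard_insert_le (x i) {y i}
    rw [Set.ncard_singleton] at h4
    exact h4
  · change (G.induce {x i, y i}).Connected
    rcases h1 i with h | h
    · rw [h, Set.pair_eq_singleton]
      have : Subsingleton ({y i} : Set V) := by
        rw [Set.subsingleton_coe]
        exact Set.subsingleton_singleton
      have hne : Nonempty ({y i} : Set V) := ⟨⟨y i, rfl⟩⟩
      exact ⟨SimpleGraph.Preconnected.of_subsingleton⟩
    · exact SimpleGraph.induce_pair_connected_of_adj h
  · obtain ⟨p, q, r, s⟩ := h2 i j hij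
    rw [Set.disjoint_left]
    rintro u (rfl | rfl) (e | e)
    · exact p e
    · exact q e
    · exact r e
    · exact s e
  · rcases h3 i j hij with h | h | h | h
    · exact ⟨_, Or.inl rfl, _, Or.inl rfl, h⟩
    · exact ⟨_, Or.inl rfl, _, Or.inr rfl, h⟩
    · exact ⟨_, Or.inr rfl, _, Or.inl rfl, h⟩
    · exact ⟨_, Or.inr rfl, _, Or.inr rfl, h⟩

end Pool.Agent.CoL67
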